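import Pool.Agent.H258R3.WbI

/-!
MP_684c87_al, Q1: a finitely generated amenable weakly branch group that is not SL.
-/

set_option autoImplicit false

namespace Pool.Agent.Results.MP_684c87_al.NotSL

/-- The rays (boundary points) of the spherically homogeneous rooted tree in which every vertex of
level `n` has `d n + 2` children; the vertices of level `n` are the prefixes of length `n`. -/
abbrev Ray (d : ℕ → ℕ) : Type := (n : ℕ) → Fin (d n + 2)

/-- The permutation `g` of the rays is induced by an automorphism of the rooted tree: for every `n`,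
two rays pass through the same vertex of level `n` exactly when their images do. -/
def IsTreeAut (d : ℕ → ℕ) (g : Equiv.Perm (Ray d)) : Prop :=
  ∀ (x y : Ray d) (n : ℕ), (∀ i < n, x i = y i) ↔ (∀ i < n, g x i = g y i)

/-- `G` is a weakly branch group of automorphisms of the rooted tree: it is transitive on every
level, and for every vertex (the one of level `n` on the ray `z`) some nontrivial element of `G`
fixes all rays outside the subtree below it. -/
def WeaklyBranch (d : ℕ → ℕ) (G : Subgroup (Equiv.Perm (Ray d))) : Prop :=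
  (∀ g ∈ G, IsTreeAut d g) ∧
  (∀ (n : ℕ) (x y : Ray d), ∃ g ∈ G, ∀ i < n, g x i = y i) ∧
  (∀ (n : ℕ) (z : Ray d), ∃ g ∈ G, g ≠ 1 ∧ ∀ x : Ray d, (∃ i < n, x i ≠ z i) → g x = x)

/-- Amenability: a finitely additive left-invariant probability on all subsets of `G`. -/
def Amenable (G : Type) [Group G] : Prop :=
  ∃ m : Set G → ℝ, (∀ A, 0 ≤ m A) ∧ m Set.univ = 1 ∧
    (∀ A B, Disjoint A B → m (A ∪ B) = m A + m B) ∧
    (∀ (g : G) (A : Set G), m ((fun h : G => g * h) '' A) = m A)

/-- There are a spherically homogeneous rooted tree and a finitely generated amenable weakly branch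
group `G` of automorphisms of it that is not SL: there is a finitely supported probability measure
on `G`, even a symmetric one, whose support generates `G` as a semigroup, with a bounded
non-constant harmonic function. -/
theorem result :
    ∃ (d : ℕ → ℕ) (G : Subgroup (Equiv.Perm (Ray d))), WeaklyBranch d G ∧ Group.FG G ∧
      Amenable G ∧ ∃ μ : G →₀ ℝ, (∀ g, 0 ≤ μ g) ∧ (μ.sum fun _ r => r) = 1 ∧
        (∀ g, μ g⁻¹ = μ g) ∧ Subsemigroup.closure (μ.support : Set G) = ⊤ ∧
        ∃ f : G → ℝ, (∃ C, ∀ g, |f g| ≤ C) ∧ (∃ g g', f g ≠ f g') ∧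
          ∀ g, f g = μ.sum fun h r => r * f (g * h) := by
  obtain ⟨F, hF, hb, hne⟩ := Pool.Agent.H258R3.Wb.exists_F
  exact Pool.Agent.H258R3.Wb.main Pool.Agent.H258R3.Wb.io Pool.Agent.H258R3.Wb.iv
    Pool.Agent.H258R3.Wb.iv_iv Pool.Agent.H258R3.Wb.io_iv Pool.Agent.H258R3.Wb.WW_all
    Pool.Agent.H258R3.Wb.hQ_LL Pool.Agent.H258R3.Wb.nu Pool.Agent.H258R3.Wb.nu_pos
    Pool.Agent.H258R3.Wb.nu_iv Pool.Agent.H258R3.Wb.nu_sum F hF hb hne

end Pool.Agent.Results.MP_684c87_al.NotSL
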